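/- MP_2619d0_ag, part COC: a 2-cocycle of order prime to the order of the group splits. -/
import Pool.Agent.Helper19.CP.Spec

set_option autoImplicit false

namespace Pool.Agent.Helper81.CP.COC

open Pool.Agent.Helper19.CP

theorem main (h : S_H90) : S_COC := by
  intro L _ P _ _ s hs1 hsm hsi m φ hcop hdet hc
  classical
  rcases Nat.eq_zero_or_pos m with hm | hm
  · subst hm
    exact ⟨1, by simp, fun σ => ⟨1, one_ne_zero, Subsingleton.elim _ _⟩⟩
  have : Fintype P := Fintype.ofFinite P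
  choose c hc0 hc1 using hc
  have hcancel : ∀ (a b : L) (M : Matrix (Fin m) (Fin m) L), M.det ≠ 0 →
      a • M = b • M → a = b := by
    intro a b M hM hab
    have hM0 : M ≠ 0 := by
      rintro rfl
      have : Nonempty (Fin m) := ⟨⟨0, hm⟩⟩
      exact hM Matrix.det_zero
    have h0 : (a - b) • M = 0 := by rw [sub_smul, hab, sub_self]
    rcases smul_eq_zero.mp h0 with h1 | h1
    · exact sub_eq_zero.mp h1
    · exact absurd h1 hM0
  have hdm : ∀ σ τ, ((φ τ).map (s σ)).det = s σ (φ τ).det := by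
    intro σ τ
    exact ((s σ).map_det (φ τ)).symm
  have hcoc : ∀ σ τ ρ, c (σ * τ) ρ * c σ τ = c σ (τ * ρ) * s σ (c τ ρ) := by
    intro σ τ ρ
    apply hcancel _ _ (φ σ * (φ τ).map (s σ) * (φ ρ).map (s (σ * τ)))
    · rw [Matrix.det_mul, Matrix.det_mul, hdm, hdm]
      exact mul_ne_zero (mul_ne_zero (hdet _) ((map_ne_zero _).mpr (hdet _)))
        ((map_ne_zero _).mpr (hdet _))
    · have h1 : φ (σ * τ * ρ) =
          (c (σ * τ) ρ * c σ τ) • (φ σ * (φ τ).map (s σ) * (φ ρ).map (s (σ * τ))) := by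
        rw [hc1 (σ * τ) ρ, hc1 σ τ, Matrix.smul_mul, smul_smul]
      have h2 : φ (σ * τ * ρ) = (c σ (τ * ρ) * s σ (c τ ρ)) •
          (φ σ * (φ τ).map (s σ) * (φ ρ).map (s (σ * τ))) := by
        have h3 : (c τ ρ • (φ τ * (φ ρ).map (s τ))).map (s σ) =
            s σ (c τ ρ) • ((φ τ).map (s σ) * (φ ρ).map (s (σ * τ))) := by
          rw [hsm]
          ext i j
          simp [Matrix.mul_apply, Matrix.map_apply, map_sum, map_mul]
        rw [mul_assoc, hc1 σ (τ * ρ), hc1 τ ρ, h3, Matrix.mul_smul, smul_smul, Matrix.mul_assoc]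
      rw [← h1, h2]
  let e : P → L := fun σ => ∏ ρ, c σ ρ
  have he0 : ∀ σ, e σ ≠ 0 := fun σ => Finset.prod_ne_zero_iff.mpr (fun ρ _ => hc0 σ ρ)
  have he : ∀ σ τ, e (σ * τ) * c σ τ ^ (Fintype.card P) = e σ * s σ (e τ) := by
    intro σ τ
    have h1 : ∏ ρ, (c (σ * τ) ρ * c σ τ) = ∏ ρ, (c σ (τ * ρ) * s σ (c τ ρ)) :=
      Finset.prod_congr rfl (fun ρ _ => hcoc σ τ ρ)
    rw [Finset.prod_mul_distrib, Finset.prod_mul_distrib, Finset.prod_const,
      Finset.card_univ] at h1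
    have h2 : ∏ ρ, c σ (τ * ρ) = ∏ ρ, c σ ρ :=
      Fintype.prod_equiv (Equiv.mulLeft τ) _ _ (fun ρ => rfl)
    rw [h2, ← map_prod] at h1
    exact h1
  have hd : ∀ σ τ, c σ τ ^ m * ((φ σ).det * s σ (φ τ).det) = (φ (σ * τ)).det := by
    intro σ τ
    rw [hc1, Matrix.det_smul, Fintype.card_fin, Matrix.det_mul, hdm]
  obtain ⟨x, y, hxy⟩ : ∃ x y : ℤ, (Fintype.card P : ℤ) * x + (m : ℤ) * y = 1 := by
    refine ⟨Nat.gcdA (Fintype.card P) m, Nat.gcdB (Fintype.card P) m, ?_⟩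
    rw [← Nat.gcd_eq_gcd_ab]
    rw [Nat.card_eq_fintype_card] at hcop
    rw [Nat.Coprime] at hcop
    rw [hcop]
    rfl
  let b : P → L := fun σ => (e σ) ^ x * ((φ σ).det ^ y)⁻¹
  have hb0 : ∀ σ, b σ ≠ 0 := fun σ =>
    mul_ne_zero (zpow_ne_zero _ (he0 σ)) (inv_ne_zero (zpow_ne_zero _ (hdet σ)))
  have hb : ∀ σ τ, b (σ * τ) * c σ τ = b σ * s σ (b τ) := by
    intro σ τ
    have hsd : s σ (φ τ).det ≠ 0 := (map_ne_zero _).mpr (hdet τ)
    have hse : s σ (e τ) ≠ 0 := (map_ne_zero _).mpr (he0 τ)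
    have hN : c σ τ ^ (Fintype.card P : ℤ) = e σ * s σ (e τ) / e (σ * τ) := by
      rw [zpow_natCast, eq_div_iff (he0 _), mul_comm]
      exact he σ τ
    have hM : c σ τ ^ (m : ℤ) = (φ (σ * τ)).det / ((φ σ).det * s σ (φ τ).det) := by
      rw [zpow_natCast, eq_div_iff (mul_ne_zero (hdet σ) hsd)]
      exact hd σ τ
    have hcc : c σ τ = (c σ τ ^ (Fintype.card P : ℤ)) ^ x * (c σ τ ^ (m : ℤ)) ^ y := by
      rw [← zpow_mul, ← zpow_mul, ← zpow_add₀ (hc0 σ τ), hxy, zpow_one]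
    rw [hcc, hN, hM]
    simp only [b, map_mul, map_inv₀, map_zpow₀, mul_zpow, div_zpow]
    have h1 := zpow_ne_zero x (he0 (σ * τ))
    have h2 := zpow_ne_zero y (hdet (σ * τ))
    have h3 := zpow_ne_zero y (hdet σ)
    have h4 := zpow_ne_zero y hsd
    field_simp
  obtain ⟨ψ, hψ, hψ1⟩ := h L P s hs1 hsm hsi m (fun σ => b σ • φ σ)
    (fun σ => by
      rw [Matrix.det_smul]
      exact mul_ne_zero (pow_ne_zero _ (hb0 σ)) (hdet σ))
    (fun σ τ => by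
      have h3 : (b τ • φ τ).map (s σ) = s σ (b τ) • (φ τ).map (s σ) := by
        ext i j
        simp [Matrix.map_apply]
      show b (σ * τ) • φ (σ * τ) = (b σ • φ σ) * (b τ • φ τ).map (s σ)
      rw [h3, hc1 σ τ, smul_smul, hb, Matrix.smul_mul, Matrix.mul_smul, smul_smul])
  refine ⟨ψ, hψ, fun σ => ⟨(b σ)⁻¹, inv_ne_zero (hb0 σ), ?_⟩⟩
  have h5 := hψ1 σ
  rw [Matrix.smul_mul] at h5
  calc φ σ * ψ.map (s σ) = (b σ)⁻¹ • (b σ • (φ σ * ψ.map (s σ))) := by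
        rw [smul_smul, inv_mul_cancel₀ (hb0 σ), one_smul]
    _ = (b σ)⁻¹ • ψ := by rw [h5]

end Pool.Agent.Helper81.CP.COC
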